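import Pool.Agent.W659.FD.Main

/-!
# Lang's conjecture, density version, for individual double covers of `A × ℙ^(n-1)`

`E_i : y² = x³ + a_i x + b_i` (`i = 1, …, r`) are elliptic curves over `ℚ` with complex
multiplication, of arbitrary rank (`j = 0` or `j = 1728` in parts 2 and 3), `A = E_1 × … × E_r`, and
`F(V; t)` is a polynomial with integer coefficients in the homogeneous coordinates
`V_i = (V_{i0} : V_{i1} : V_{i2})` of the plane cubics `E_i` and in parameters `t = (t_1, …, t_n)`,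
multihomogeneous of even degree `d_i` in each `V_i`. The variety is the double cover

  `𝒳 : w² = F(P; t)`, `P ∈ A`,

of `A × 𝔸ⁿ` (of `A × ℙ^(n-1)` if `F` is homogeneous of even degree `2k` in `t`; then `𝒳` has
dimension `r + n - 1` and, if its singularities are mild, it is of general type as soon as `k > n`
and all `d_i > 0`).

Hypothesis: for no complex point `P` of `A` is the polynomial `F(P; t)` a square, that is, the
restriction of the cover to `{P} × 𝔸ⁿ` is irreducible for every `P ∈ A(ℂ)`.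

Theorem: the number of the `t ∈ ℤⁿ`, `|t_k| ≤ H`, such that the fibre `𝒳_t : w² = F(P; t)` (a double
cover of `A`) has a rational point is `O(H^(n - 1/5 + ε))`. So all the rational points of the
individual variety `𝒳` lie over a subset of density zero, with a power saving, of the base: `100 %`
of the fibres have no rational point, although `A(ℚ)` is infinite.

* Part 1 : the general form. `E_i` is supersingular at all primes `p ≡ -1 mod M`, `p ∤ D`, and for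
  these `p` and all points `P` of `A` over `𝔽_p` the polynomial `F(P; t)` is not a constant times a
  square.
* Part 2 : `j = 0, 1728`, hypothesis over `ℂ`.
* Part 3 : an explicit class in every dimension: `𝒳 : w² = t₀ t₁ ∑_j f_j(P) t₀^(2(k-j)) t₁^(2j)`,
  where `f_0, …, f_k` are arbitrary forms of the same even multidegree without common zero on `A(ℂ)`.
-/

set_option autoImplicit false

namespace Pool.Agent.Results.MP_2ae8fe_ag.FibresWithoutPoints

open MvPolynomial Pool.Agent.W659.FD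

/-- the points `t` of the box `[-H, H]ⁿ` for which the double cover `w² = F(P; t)` of
`E_1 × … × E_r` has a rational point -/
def Fib {r n : ℕ} (a b : Fin r → ℤ) (F : Poly r n) (H : ℕ) : Set (Fin n → ℤ) :=
  {t | (∀ k, |t k| ≤ H) ∧ ∃ (V : Fin r → Fin 3 → ℚ) (w : ℚ),
    (∀ i, OnE (a i) (b i) (V i)) ∧ w ^ 2 = val F V (fun k => (t k : ℚ))}

theorem result :
    -- Part 1: general form
    (∀ (r n : ℕ), 1 ≤ n → ∀ (a b : Fin r → ℤ) (M D : ℕ), 0 < M → 0 < D →
      (∀ i, 4 * a i ^ 3 + 27 * b i ^ 2 ≠ 0) →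
      (∀ i, ∀ p : ℕ, p.Prime → ¬ p ∣ D → M ∣ p + 1 →
        Nat.card {z : ZMod p × ZMod p // z.2 ^ 2 = z.1 ^ 3 + a i * z.1 + b i} = p) →
      ∀ (F : Poly r n) (d : Fin r → ℕ), (∀ i, Even (d i)) → MultiHomog F d →
      (∀ (p : ℕ) [Fact p.Prime], ¬ p ∣ D → M ∣ p + 1 →
        ∀ V : Fin r → Fin 3 → ZMod p, (∀ i, OnE (a i) (b i) (V i)) →
          ∀ (c : ZMod p) (g : MvPolynomial (Fin n) (ZMod p)), spec F V ≠ C c * g ^ 2) →
      ∀ ε : ℝ, 0 < ε → ∃ C₀ : ℝ, ∀ H : ℕ, 1 ≤ H →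
        ((Fib a b F H).ncard : ℝ) ≤ C₀ * (H : ℝ) ^ ((n : ℝ) - 1 / 5 + ε)) ∧
    -- Part 2: `j = 0` or `1728`, irreducibility over `ℂ`
    (∀ (r n : ℕ), 1 ≤ n → ∀ (a b : Fin r → ℤ), (∀ i, a i * b i = 0 ∧ (a i ≠ 0 ∨ b i ≠ 0)) →
      ∀ (F : Poly r n) (d : Fin r → ℕ), (∀ i, Even (d i)) → MultiHomog F d →
      (∀ V : Fin r → Fin 3 → ℂ, (∀ i, OnE (a i) (b i) (V i)) →
        ∀ g : MvPolynomial (Fin n) ℂ, spec F V ≠ g ^ 2) →
      ∀ ε : ℝ, 0 < ε → ∃ C₀ : ℝ, ∀ H : ℕ, 1 ≤ H →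
        ((Fib a b F H).ncard : ℝ) ≤ C₀ * (H : ℝ) ^ ((n : ℝ) - 1 / 5 + ε)) ∧
    -- Part 3: an explicit class of double covers of `A × ℙ¹`
    (∀ (r k : ℕ) (a b : Fin r → ℤ), (∀ i, a i * b i = 0 ∧ (a i ≠ 0 ∨ b i ≠ 0)) →
      ∀ (f : Fin (k + 1) → MvPolynomial (Fin r × Fin 3) ℤ) (d : Fin r → ℕ), (∀ i, Even (d i)) →
      (∀ s, ∀ e ∈ (f s).support, ∀ i, ∑ j, e (i, j) = d i) →
      (∀ V : Fin r → Fin 3 → ℂ, (∀ i, OnE (a i) (b i) (V i)) →
        ∃ s, aeval (fun ij : Fin r × Fin 3 => V ij.1 ij.2) (f s) ≠ 0) →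
      ∀ ε : ℝ, 0 < ε → ∃ C₀ : ℝ, ∀ H : ℕ, 1 ≤ H →
        (({t : Fin 2 → ℤ | (∀ k, |t k| ≤ H) ∧ ∃ (V : Fin r → Fin 3 → ℚ) (w : ℚ),
          (∀ i, OnE (a i) (b i) (V i)) ∧ w ^ 2 = (t 0 : ℚ) * (t 1 : ℚ) *
            ∑ j : Fin (k + 1), aeval (fun ij : Fin r × Fin 3 => V ij.1 ij.2) (f j) *
              ((t 0 : ℚ) ^ (2 * (k - (j : ℕ))) * (t 1 : ℚ) ^ (2 * (j : ℕ)))}.ncard : ℕ) : ℝ) ≤
          C₀ * (H : ℝ) ^ ((2 : ℝ) - 1 / 5 + ε)) := by
  refine ⟨main1, main2, ?_⟩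
  intro r k a b hab f d hd hf hz ε hε
  obtain ⟨C₀, hC⟩ := main2 r 2 (by norm_num) a b hab (exPoly f) d hd (exPoly_homog f d hf)
    (fun V hV g => spec_exPoly_ne f V (hz V hV) g) ε hε
  refine ⟨C₀, fun H hH => ?_⟩
  have h := hC H hH
  refine le_trans (le_of_eq ?_) h
  congr 2
  ext t
  simp only [Set.mem_setOf_eq]
  refine and_congr_right fun _ => ?_
  refine exists_congr fun V => exists_congr fun w => and_congr_right fun _ => ?_
  rw [val_exPoly]

end Pool.Agent.Results.MP_2ae8fe_ag.FibresWithoutPoints
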